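import Mathlib
import Pool.Agent.H332R2.CastLem

/-! Duality for scaled Bernoulli polynomials modulo `p`:
`∑ₙ eₙ(y) ((Dₙ G)(N) - (Dₙ G)(0)) = N G'(y)`, with `eₙ(y) = Nⁿ Bₙ(y/N)` and `Dₙ` the Hasse
derivatives, for polynomials `G` of degree less than `p`. -/

open Finset Polynomial

namespace Pool.Agent.Run7.h572.ST

open Pool.Agent.H332R2

/-- `N ^ n * B_n (y / N)` -/
noncomputable def EQ (N n y : ℕ) : ℚ :=
  (N : ℚ) ^ n * (Polynomial.bernoulli n).eval ((y : ℚ) / N)

lemma EQ_eq {N : ℕ} (hN : 0 < N) (n y : ℕ) :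
    EQ N n y = ∑ i ∈ range (n + 1), ((y ^ (n - i) * N ^ i * n.choose i : ℕ) : ℚ) * _root_.bernoulli i := by
  have hN' : (N : ℚ) ≠ 0 := by exact_mod_cast hN.ne'
  unfold EQ
  rw [Polynomial.bernoulli, eval_finsetSum, Finset.mul_sum]
  refine Finset.sum_congr rfl (fun i hi => ?_)
  rw [Finset.mem_range] at hi
  rw [eval_monomial, div_pow]
  push_cast
  have : (N : ℚ) ^ n = (N : ℚ) ^ (n - i) * (N : ℚ) ^ i := by
    rw [← pow_add]; congr 1; omega
  rw [this]
  field_simp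

lemma EQ_sum {N : ℕ} (hN : 0 < N) (r y : ℕ) (hr : 1 ≤ r) :
    ∑ n ∈ range r, ((r.choose n * N ^ (r - n) : ℕ) : ℚ) * EQ N n y =
      ((N * r * y ^ (r - 1) : ℕ) : ℚ) := by
  have hN' : (N : ℚ) ≠ 0 := by exact_mod_cast hN.ne'
  obtain ⟨s, rfl⟩ : ∃ s, r = s + 1 := ⟨r - 1, by omega⟩
  have h := congrArg (Polynomial.eval ((y : ℚ) / N)) (Polynomial.sum_bernoulli s)
  rw [eval_finsetSum, eval_monomial] at h
  simp only [eval_smul, smul_eq_mul] at h
  have h2 : ∑ n ∈ range (s + 1), (((s + 1).choose n * N ^ (s + 1 - n) : ℕ) : ℚ) * EQ N n y =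
      (N : ℚ) ^ (s + 1) * ∑ n ∈ range (s + 1), ((s + 1).choose n : ℚ) *
        (Polynomial.bernoulli n).eval ((y : ℚ) / N) := by
    rw [Finset.mul_sum]
    refine Finset.sum_congr rfl (fun n hn => ?_)
    rw [Finset.mem_range] at hn
    unfold EQ
    push_cast
    have : (N : ℚ) ^ (s + 1) = (N : ℚ) ^ (s + 1 - n) * (N : ℚ) ^ n := by
      rw [← pow_add]; congr 1; omega
    rw [this]
    ring
  rw [h2, h, div_pow]
  push_cast
  rw [pow_succ]
  field_simp

lemma EQ_one_sub {N : ℕ} (hN : 0 < N) (n y : ℕ) (hy : y ≤ N) :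
    EQ N n (N - y) = (-1) ^ n * EQ N n y := by
  have hN' : (N : ℚ) ≠ 0 := by exact_mod_cast hN.ne'
  unfold EQ
  have h : (((N - y : ℕ) : ℚ)) / N = 1 - (y : ℚ) / N := by
    rw [Nat.cast_sub hy]; field_simp
  rw [h, Polynomial.bernoulli_eval_one_sub]
  ring

variable {k : Type*} [Field k] {p : ℕ} [hp : Fact p.Prime] [hk : CharP k p]

omit hp in
lemma natk_ne_zero {j : ℕ} (h1 : 0 < j) (h2 : j < p) : ((j : ℕ) : k) ≠ 0 := by
  intro h
  rw [CharP.cast_eq_zero_iff k p] at h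
  exact absurd (Nat.le_of_dvd h1 h) (by omega)

lemma factk_ne_zero {j : ℕ} (h2 : j < p) : ((j.factorial : ℕ) : k) ≠ 0 := by
  intro h
  rw [CharP.cast_eq_zero_iff k p] at h
  have := (hp.out.dvd_factorial).mp h
  omega

lemma bernk_den_ne {j : ℕ} (hk : j + 2 ≤ p) (hp3 : 3 ≤ p) :
    (((_root_.bernoulli j).den : ℕ) : k) ≠ 0 := by
  intro h
  rw [CharP.cast_eq_zero_iff k p] at h
  exact bern_den_ne (p := p) hk hp3 ((ZMod.natCast_eq_zero_iff _ _).mpr h)

lemma EQ_den_ne {N : ℕ} (hN : 0 < N) (n y : ℕ) (hn : n + 2 ≤ p) (hp3 : 3 ≤ p) :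
    (((EQ N n y).den : ℕ) : k) ≠ 0 := by
  rw [EQ_eq hN]
  refine (cast_sum_ok (F := k) _ _ (fun i hi => ?_)).1
  rw [Finset.mem_range] at hi
  exact den_mul_ne (den_nat_ne _) (bernk_den_ne (p := p) (by omega) hp3)

/-- the reduction of `EQ` -/
noncomputable def ee (k : Type*) [Field k] (N n y : ℕ) : k := ((EQ N n y : ℚ) : k)

lemma ee_sum {N : ℕ} (hN : 0 < N) (r y : ℕ) (hr : 1 ≤ r) (hrp : r + 1 ≤ p) (hp3 : 3 ≤ p) :
    ∑ n ∈ range r, (r.choose n : k) * (N : k) ^ (r - n) * ee k N n y =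
      (N : k) * ((r : k) * (y : k) ^ (r - 1)) := by
  have h := EQ_sum hN r y hr
  have h2 := cast_sum_ok (F := k) (range r)
    (fun n => ((r.choose n * N ^ (r - n) : ℕ) : ℚ) * EQ N n y) (fun n hn => by
      rw [Finset.mem_range] at hn
      exact den_mul_ne (den_nat_ne _) (EQ_den_ne (p := p) hN n y (by omega) hp3))
  have h3 := congrArg (fun q : ℚ => (q : k)) h
  beta_reduce at h3
  rw [h2.2, Rat.cast_natCast] at h3
  push_cast at h3
  rw [← mul_assoc, ← h3]
  refine Finset.sum_congr rfl (fun n hn => ?_)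
  rw [Finset.mem_range] at hn
  rw [Rat.cast_mul_of_ne_zero (by
      have := den_nat_ne (F := k) (r.choose n * N ^ (r - n)); push_cast at this; exact this)
    (EQ_den_ne (p := p) hN n y (by omega) hp3)]
  have h4 : (((r.choose n : ℚ) * (N : ℚ) ^ (r - n) : ℚ) : k) =
      (r.choose n : k) * (N : k) ^ (r - n) := by
    have : ((r.choose n : ℚ) * (N : ℚ) ^ (r - n) : ℚ) = ((r.choose n * N ^ (r - n) : ℕ) : ℚ) := by
      push_cast; ring
    rw [this, Rat.cast_natCast]; push_cast; ring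
  rw [h4]
  rfl

lemma ee_one_sub {N : ℕ} (hN : 0 < N) (n y : ℕ) (hy : y ≤ N) (hn : n + 2 ≤ p) (hp3 : 3 ≤ p) :
    ee k N n (N - y) = (-1) ^ n * ee k N n y := by
  unfold ee
  rw [EQ_one_sub hN n y hy]
  have h1 : (((-1 : ℚ) ^ n).den : k) ≠ 0 := by
    refine den_pow_ne ?_ n
    have : ((-1 : ℚ)).den = 1 := by norm_num
    rw [this]; simp
  rw [Rat.cast_mul_of_ne_zero h1 (EQ_den_ne (p := p) hN n y hn hp3)]
  congr 1
  have : ((-1 : ℚ) ^ n) = (((-1 : ℤ) ^ n : ℤ) : ℚ) := by push_cast; rfl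
  rw [this, Rat.cast_intCast]
  push_cast
  rfl

/-- difference of the values at `N` and `0` of a Hasse derivative -/
noncomputable def JJ (N n : ℕ) (G : k[X]) : k :=
  (hasseDeriv n G).eval (N : k) - (hasseDeriv n G).eval 0

lemma JJ_monomial (N n r : ℕ) (c : k) :
    JJ N n (monomial r c) = if n < r then c * ((r.choose n : k) * (N : k) ^ (r - n)) else 0 := by
  unfold JJ
  rw [hasseDeriv_monomial, eval_monomial, eval_monomial]
  rcases lt_trichotomy n r with h | h | h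
  · rw [if_pos h, zero_pow (by omega)]; ring
  · subst h
    simp
  · rw [if_neg (by omega), Nat.choose_eq_zero_of_lt h]; simp

lemma duality {N : ℕ} (hN : 0 < N) (y M : ℕ) (hM : M + 1 ≤ p) (hp3 : 3 ≤ p) (G : k[X])
    (hG : G.natDegree ≤ M) :
    ∑ n ∈ range M, ee k N n y * JJ N n G = (N : k) * (derivative G).eval (y : k) := by
  have hsum : G = ∑ r ∈ range (M + 1), monomial r (G.coeff r) :=
    G.as_sum_range' (M + 1) (by omega)
  have hJ : ∀ n, JJ N n G = ∑ r ∈ range (M + 1), JJ N n (monomial r (G.coeff r)) := by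
    intro n
    conv_lhs => rw [hsum]
    unfold JJ
    rw [map_sum, eval_finsetSum, eval_finsetSum, ← Finset.sum_sub_distrib]
  have hD : (derivative G).eval (y : k) =
      ∑ r ∈ range (M + 1), (derivative (monomial r (G.coeff r))).eval (y : k) := by
    conv_lhs => rw [hsum]
    rw [map_sum, eval_finsetSum]
  rw [hD, Finset.mul_sum]
  simp_rw [hJ, Finset.mul_sum]
  rw [Finset.sum_comm]
  refine Finset.sum_congr rfl (fun r hr => ?_)
  rw [Finset.mem_range] at hr
  simp_rw [JJ_monomial]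
  rw [derivative_monomial, eval_monomial]
  rcases Nat.eq_zero_or_pos r with rfl | hr0
  · simp
  have h1 : ∑ n ∈ range M, ee k N n y * (if n < r then G.coeff r *
      ((r.choose n : k) * (N : k) ^ (r - n)) else 0) =
      ∑ n ∈ range r, ee k N n y * (G.coeff r * ((r.choose n : k) * (N : k) ^ (r - n))) := by
    symm
    have h2 : ∑ n ∈ range r, ee k N n y * (G.coeff r * ((r.choose n : k) * (N : k) ^ (r - n))) =
      ∑ n ∈ range r, ee k N n y * (if n < r then G.coeff r *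
      ((r.choose n : k) * (N : k) ^ (r - n)) else 0) := by
      refine Finset.sum_congr rfl (fun n hn => ?_)
      rw [Finset.mem_range] at hn
      rw [if_pos hn]
    rw [h2]
    refine Finset.sum_subset (fun n hn => ?_) (fun n _ hn => ?_)
    · rw [Finset.mem_range] at hn ⊢; omega
    · rw [Finset.mem_range] at hn
      rw [if_neg hn, mul_zero]
  rw [h1]
  have h3 := ee_sum (k := k) (p := p) hN r y hr0 (by omega) hp3
  have h4 : ∑ n ∈ range r, ee k N n y * (G.coeff r * ((r.choose n : k) * (N : k) ^ (r - n))) =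
      G.coeff r * ∑ n ∈ range r, (r.choose n : k) * (N : k) ^ (r - n) * ee k N n y := by
    rw [Finset.mul_sum]
    refine Finset.sum_congr rfl (fun n _ => ?_)
    ring
  rw [h4, h3]
  ring

end Pool.Agent.Run7.h572.ST
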