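import Mathlib
import Pool.Agent.Run7.h572.ST.Dual

/-! The rank statement for the scaled Bernoulli polynomials modulo `p`, in the function basis. -/

open Finset Polynomial

namespace Pool.Agent.Run7.h572.ST

variable {k : Type*} [Field k] {p : ℕ} [hp : Fact p.Prime] [hk : CharP k p]

/-- difference of the values at `N` and `0` of an iterated derivative -/
noncomputable def II (N s : ℕ) (G : k[X]) : k :=
  (derivative^[s] G).eval (N : k) - (derivative^[s] G).eval 0

lemma JJ_iter (N n t : ℕ) (hn : n < p) (G : k[X]) :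
    JJ N n (derivative^[t] G) = ((n.factorial : ℕ) : k)⁻¹ * II N (n + t) G := by
  have h := factk_ne_zero (k := k) (p := p) hn
  have h2 : derivative^[n + t] G = (n.factorial : k) • hasseDeriv n (derivative^[t] G) := by
    rw [Function.iterate_add_apply, ← factorial_smul_hasseDeriv, LinearMap.smul_apply,
      Nat.cast_smul_eq_nsmul]
  unfold JJ II
  rw [h2, eval_smul, eval_smul, smul_eq_mul, smul_eq_mul]
  field_simp

lemma II_zero_of_natDegree_le (N s : ℕ) (G : k[X]) (h : G.natDegree ≤ s) : II N s G = 0 := by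
  have h1 : (derivative^[s] G).natDegree = 0 := by
    have := natDegree_iterate_derivative G s
    omega
  unfold II
  rw [eq_C_of_natDegree_eq_zero h1]
  simp

lemma shift_sum (M t : ℕ) (g I : ℕ → k) (hI : ∀ s, M ≤ s → I s = 0) :
    ∑ n ∈ range M, g n * I (n + t) =
      ∑ s ∈ range M, (if t ≤ s then g (s - t) else 0) * I s := by
  have h1 : ∑ s ∈ range M, (if t ≤ s then g (s - t) else 0) * I s =
      ∑ s ∈ range (t + M), (if t ≤ s then g (s - t) else 0) * I s := by
    refine Finset.sum_subset (fun s hs => ?_) (fun s _ hs => ?_)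
    · rw [Finset.mem_range] at hs ⊢; omega
    · rw [Finset.mem_range, not_lt] at hs
      rw [hI s hs, mul_zero]
  rw [h1, Finset.sum_range_add]
  have h2 : ∑ s ∈ range t, (if t ≤ s then g (s - t) else 0) * I s = 0 := by
    refine Finset.sum_eq_zero (fun s hs => ?_)
    rw [Finset.mem_range] at hs
    rw [if_neg (by omega), zero_mul]
  rw [h2, zero_add]
  refine Finset.sum_congr rfl (fun n _ => ?_)
  rw [if_pos (by omega), Nat.add_sub_cancel_left, Nat.add_comm t n]

omit hp in
lemma exists_antideriv (H : k[X]) (M : ℕ) (hM : M < p) (hH : H.natDegree < M) :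
    ∃ G : k[X], G.natDegree ≤ M ∧ derivative G = H := by
  refine ⟨∑ j ∈ range M, monomial (j + 1) (H.coeff j * (((j + 1 : ℕ) : k))⁻¹), ?_, ?_⟩
  · refine natDegree_sum_le_of_forall_le _ _ (fun j hj => ?_)
    rw [Finset.mem_range] at hj
    exact (natDegree_monomial_le _).trans (by omega)
  · rw [map_sum]
    conv_rhs => rw [H.as_sum_range' M hH]
    refine Finset.sum_congr rfl (fun j hj => ?_)
    rw [Finset.mem_range] at hj
    have h1 := natk_ne_zero (k := k) (p := p) (j := j + 1) (by omega) (by omega)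
    rw [derivative_monomial, Nat.add_sub_cancel, mul_assoc, inv_mul_cancel₀ h1, mul_one]

lemma functional {N : ℕ} (hN : 0 < N) (hNk : (N : k) ≠ 0) (ε m u L : ℕ) (hε : ε ≤ 1)
    (_hm : 1 ≤ m) (hpL : 2 * (m + u + L) + ε + 1 ≤ p) (hp3 : 3 ≤ p) (f : ℕ → ℕ → k)
    (hz : ε = 0 → ∀ a, ∑ y ∈ range N, f a y * ee k N 0 y = 0)
    (hpar : ∀ a n, n + 2 ≤ p → Odd (n + ε) → ∑ y ∈ range N, f a y * ee k N n y = 0)
    (hker : ∀ b ∈ Ico u (u + L), ∑ a ∈ Icc 1 m,
      (∑ y ∈ range N, f a y * ee k N (2 * (a + b) + ε) y) *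
        (((2 * (a + b) + ε).factorial : ℕ) : k)⁻¹ = 0)
    (G : k[X]) (hdeg : G.natDegree ≤ 2 * (m + u + L) + ε)
    (hI : ∀ s, 1 ≤ s → s + 2 ≤ 2 * (m + u) + ε → II N s G = 0) :
    ∑ a ∈ Icc 1 m, ∑ y ∈ range N, f a y * (derivative^[2 * (m - a) + 1] G).eval (y : k) = 0 := by
  obtain ⟨M, hM⟩ : ∃ M, M = 2 * (m + u + L) + ε := ⟨_, rfl⟩
  set β : ℕ → ℕ → k := fun a n => ∑ y ∈ range N, f a y * ee k N n y with hβ
  set γ : ℕ → ℕ → k := fun a n => β a n * ((n.factorial : ℕ) : k)⁻¹ with hγ
  have hstep : ∀ a ∈ Icc 1 m,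
      (N : k) * ∑ y ∈ range N, f a y * (derivative^[2 * (m - a) + 1] G).eval (y : k) =
      ∑ s ∈ range M, (if 2 * (m - a) ≤ s then γ a (s - 2 * (m - a)) else 0) * II N s G := by
    intro a _
    rw [← shift_sum M (2 * (m - a)) (γ a) (fun s => II N s G)
      (fun s hs => II_zero_of_natDegree_le N s G (by omega))]
    have hGt : (derivative^[2 * (m - a)] G).natDegree ≤ M := by
      have := natDegree_iterate_derivative G (2 * (m - a))
      omega
    rw [Finset.mul_sum]
    have h1 : ∀ y ∈ range N, (N : k) * (f a y * (derivative^[2 * (m - a) + 1] G).eval (y : k)) =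
        ∑ n ∈ range M, f a y * ee k N n y * JJ N n (derivative^[2 * (m - a)] G) := by
      intro y _
      have h2 := duality (k := k) (p := p) hN y M (by omega) hp3 (derivative^[2 * (m - a)] G) hGt
      rw [Function.iterate_succ_apply']
      calc (N : k) * (f a y * (derivative (derivative^[2 * (m - a)] G)).eval (y : k))
          = f a y * ((N : k) * (derivative (derivative^[2 * (m - a)] G)).eval (y : k)) := by ring
        _ = _ := by
          rw [← h2, Finset.mul_sum]
          refine Finset.sum_congr rfl (fun n _ => ?_)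
          ring
    rw [Finset.sum_congr rfl h1, Finset.sum_comm]
    refine Finset.sum_congr rfl (fun n hn => ?_)
    rw [Finset.mem_range] at hn
    rw [← Finset.sum_mul, JJ_iter (p := p) N n (2 * (m - a)) (by omega) G]
    simp only [hγ, hβ]
    ring
  have htot : (N : k) * ∑ a ∈ Icc 1 m, ∑ y ∈ range N,
      f a y * (derivative^[2 * (m - a) + 1] G).eval (y : k) = 0 := by
    rw [Finset.mul_sum, Finset.sum_congr rfl hstep, Finset.sum_comm]
    refine Finset.sum_eq_zero (fun s hs => ?_)
    rw [Finset.mem_range] at hs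
    rw [← Finset.sum_mul]
    rcases Nat.eq_zero_or_pos s with rfl | hs0
    · rw [mul_eq_zero]
      left
      refine Finset.sum_eq_zero (fun a ha => ?_)
      rcases Nat.eq_zero_or_pos (2 * (m - a)) with h0 | h0
      · rw [h0, if_pos (le_refl 0)]
        have hb0 : β a 0 = 0 := by
          simp only [hβ]
          rcases Nat.eq_zero_or_pos ε with he | he
          · exact hz he a
          · exact hpar a 0 (by omega) ⟨0, by omega⟩
        simp only [hγ, Nat.sub_zero, hb0, zero_mul]
      · rw [if_neg (by omega)]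
    rcases Nat.lt_or_ge (2 * (m + u) + ε) (s + 2) with h | h
    swap
    · rw [hI s hs0 h, mul_zero]
    rw [mul_eq_zero]
    left
    rcases Nat.even_or_odd (s + ε) with he | ho
    · -- an even index: the kernel condition
      obtain ⟨c, hc⟩ := he
      have hb := hker (c - ε - m) (by rw [Finset.mem_Ico]; omega)
      rw [← hb]
      refine Finset.sum_congr rfl (fun a ha => ?_)
      rw [Finset.mem_Icc] at ha
      rw [if_pos (by omega)]
      have e3 : s - 2 * (m - a) = 2 * (a + (c - ε - m)) + ε := by omega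
      rw [e3]
    · refine Finset.sum_eq_zero (fun a ha => ?_)
      rw [Finset.mem_Icc] at ha
      rw [if_pos (by omega)]
      simp only [hγ, hβ]
      rw [hpar a (s - 2 * (m - a)) (by omega) (by
        obtain ⟨c, hc⟩ := ho
        exact ⟨c - (m - a), by omega⟩), zero_mul]
  exact (mul_eq_zero.mp htot).resolve_left hNk

omit hp hk in
lemma eval_iter_lt (G Q : k[X]) (q : ℕ) (r : k) (h : G = (X - C r) ^ q * Q) (j : ℕ)
    (hj : j < q) : (derivative^[j] G).eval r = 0 := by
  have := aeval_iterate_derivative_of_lt (A := k) G q r (p' := Q)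
    (by rw [Algebra.algebraMap_self, Polynomial.map_id, h]) hj
  rwa [coe_aeval_eq_eval] at this

omit hp hk in
lemma eval_iter_self (G Q : k[X]) (q : ℕ) (r : k) (h : G = (X - C r) ^ q * Q) :
    (derivative^[q] G).eval r = ((q.factorial : ℕ) : k) * Q.eval r := by
  have := aeval_iterate_derivative_self (A := k) G q r (p' := Q)
    (by rw [Algebra.algebraMap_self, Polynomial.map_id, h])
  rw [coe_aeval_eq_eval] at this
  rw [this, nsmul_eq_mul]

omit hp in
lemma castk_ne {a b : ℕ} (ha : a < p) (hb : b < p) (hab : a ≠ b) : (a : k) - (b : k) ≠ 0 := by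
  rcases Nat.lt_or_gt_of_ne hab with h | h
  · have h1 := natk_ne_zero (k := k) (p := p) (j := b - a) (by omega) (by omega)
    rw [Nat.cast_sub h.le] at h1
    intro h2; apply h1; rw [← neg_sub, h2, neg_zero]
  · have h1 := natk_ne_zero (k := k) (p := p) (j := a - b) (by omega) (by omega)
    rwa [Nat.cast_sub h.le] at h1

/-- the rank statement in the function basis -/
theorem core {N : ℕ} (hN : 2 ≤ N) (hNp : N < p) (ε m u L : ℕ) (hε : ε ≤ 1)
    (hL : 2 * (m + u) + ε + 2 * m * N.totient ≤ 2 * L + 4 + N.totient)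
    (hpL : 2 * (m + u + L) + ε + 1 ≤ p) (f : ℕ → ℕ → k)
    (hsupp : ∀ a, ∀ y < N, ¬ N.Coprime y → f a y = 0)
    (hz : ε = 0 → ∀ a, ∑ y ∈ range N, f a y * ee k N 0 y = 0)
    (hpar : ∀ a n, n + 2 ≤ p → Odd (n + ε) → ∑ y ∈ range N, f a y * ee k N n y = 0)
    (hker : ∀ b ∈ Ico u (u + L), ∑ a ∈ Icc 1 m,
      (∑ y ∈ range N, f a y * ee k N (2 * (a + b) + ε) y) *
        (((2 * (a + b) + ε).factorial : ℕ) : k)⁻¹ = 0) :
    ∀ a ∈ Icc 1 m, ∀ y < N, f a y = 0 := by
  classical
  intro a1 ha1 y0 hy0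
  by_contra hne
  have hm : 1 ≤ m := by rw [Finset.mem_Icc] at ha1; omega
  have hNk : (N : k) ≠ 0 := natk_ne_zero (p := p) (by omega) hNp
  have hcop : N.Coprime y0 := by
    by_contra h; exact hne (hsupp a1 y0 hy0 h)
  have hy0pos : 0 < y0 := by
    rcases Nat.eq_zero_or_pos y0 with h | h
    · rw [h, Nat.coprime_zero_right] at hcop; omega
    · exact h
  set S := (Icc 1 m).filter (fun a => f a y0 ≠ 0) with hS
  have hSne : S.Nonempty := ⟨a1, by rw [hS, Finset.mem_filter]; exact ⟨ha1, hne⟩⟩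
  obtain ⟨a0, ha0S, ha0min⟩ : ∃ a0 ∈ S, ∀ a ∈ S, a0 ≤ a :=
    ⟨S.min' hSne, S.min'_mem hSne, fun a ha => S.min'_le a ha⟩
  rw [hS, Finset.mem_filter, Finset.mem_Icc] at ha0S
  obtain ⟨⟨ha01, ha0m⟩, ha0ne⟩ := ha0S
  obtain ⟨d, hd⟩ : ∃ d, d + 2 = 2 * (m + u) + ε := ⟨2 * (m + u) + ε - 2, by omega⟩
  obtain ⟨l0, hl0⟩ : ∃ l0, l0 = 2 * (m - a0) := ⟨_, rfl⟩
  obtain ⟨M, hM⟩ : ∃ M, M = 2 * (m + u + L) + ε := ⟨_, rfl⟩
  obtain ⟨w, hw⟩ : ∃ w, w + 1 = 2 * m := ⟨2 * m - 1, by omega⟩
  set U := (range N).filter (fun y => N.Coprime y) with hU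
  have hUcard : U.card = N.totient := (Nat.totient_eq_card_coprime N).symm
  have hy0U : y0 ∈ U := by
    rw [hU, Finset.mem_filter, Finset.mem_range]; exact ⟨hy0, hcop⟩
  have hUe : (U.erase y0).card = N.totient - 1 := by
    rw [Finset.card_erase_of_mem hy0U, hUcard]
  have hUpos : 1 ≤ N.totient := by
    rw [← hUcard]; exact Finset.card_pos.mpr ⟨y0, hy0U⟩
  set P : k[X] := ∏ y ∈ U.erase y0, (X - C (y : k)) ^ w with hP
  set Q : k[X] := X ^ d * (X - C (N : k)) ^ d * P with hQ
  set H : k[X] := (X - C (y0 : k)) ^ l0 * Q with hH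
  have hPdeg : P.natDegree ≤ w * (N.totient - 1) := by
    refine (natDegree_prod_le _ _).trans ?_
    have h1 : ∑ y ∈ U.erase y0, ((X - C (y : k)) ^ w).natDegree ≤
        ∑ _y ∈ U.erase y0, w := by
      refine Finset.sum_le_sum (fun y _ => ?_)
      refine natDegree_pow_le.trans ?_
      rw [natDegree_X_sub_C, mul_one]
    refine h1.trans ?_
    rw [Finset.sum_const, hUe, smul_eq_mul, mul_comm]
  have hHdeg : H.natDegree ≤ l0 + (d + d + w * (N.totient - 1)) := by
    refine natDegree_mul_le.trans (Nat.add_le_add ?_ ?_)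
    · refine natDegree_pow_le.trans ?_
      rw [natDegree_X_sub_C, mul_one]
    · refine natDegree_mul_le.trans (Nat.add_le_add ?_ hPdeg)
      refine natDegree_mul_le.trans (Nat.add_le_add ?_ ?_)
      · refine natDegree_pow_le.trans ?_
        rw [natDegree_X, mul_one]
      · refine natDegree_pow_le.trans ?_
        rw [natDegree_X_sub_C, mul_one]
  have hmul : w * (N.totient - 1) + w + N.totient = 2 * m * N.totient := by
    obtain ⟨t, ht⟩ : ∃ t, N.totient = t + 1 := ⟨N.totient - 1, by omega⟩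
    rw [ht, ← hw]
    have : t + 1 - 1 = t := by omega
    rw [this]; ring
  obtain ⟨G, hGdeg, hGH⟩ := exists_antideriv (k := k) (p := p) H M (by omega) (by omega)
  have hiter : ∀ s, derivative^[s + 1] G = derivative^[s] H := by
    intro s
    rw [Function.iterate_succ_apply, hGH]
  have hmain := functional (k := k) (p := p) (by omega) hNk ε m u L hε hm hpL (by omega) f hz
    hpar hker G (by omega) (by
    intro s hs1 hs
    obtain ⟨j, rfl⟩ : ∃ j, s = j + 1 := ⟨s - 1, by omega⟩
    unfold II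
    rw [hiter, eval_iter_lt H ((X - C (y0 : k)) ^ l0 * (X ^ d * P)) d (N : k)
        (by rw [hH, hQ]; ring) j (by omega),
      eval_iter_lt H ((X - C (y0 : k)) ^ l0 * ((X - C (N : k)) ^ d * P)) d 0
        (by rw [hH, hQ, C_0, sub_zero]; ring) j (by omega), sub_zero])
  simp only [hiter] at hmain
  have hval : ∑ a ∈ Icc 1 m, ∑ y ∈ range N,
      f a y * (derivative^[2 * (m - a)] H).eval (y : k) =
      f a0 y0 * (((l0.factorial : ℕ) : k) * Q.eval (y0 : k)) := by
    rw [Finset.sum_eq_single a0]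
    · rw [Finset.sum_eq_single y0]
      · rw [← hl0, eval_iter_self H Q l0 (y0 : k) hH]
      · intro y hy hyne
        rw [Finset.mem_range] at hy
        by_cases hc : N.Coprime y
        · have hyU : y ∈ U.erase y0 := by
            rw [Finset.mem_erase, hU, Finset.mem_filter, Finset.mem_range]
            exact ⟨hyne, hy, hc⟩
          rw [eval_iter_lt H ((X - C (y0 : k)) ^ l0 * (X ^ d * (X - C (N : k)) ^ d *
            ∏ z ∈ (U.erase y0).erase y, (X - C (z : k)) ^ w)) w (y : k) (by
              rw [hH, hQ, hP, ← Finset.mul_prod_erase _ _ hyU]; ring) _ (by omega), mul_zero]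
        · rw [hsupp a0 y hy hc, zero_mul]
      · intro h; exact absurd (Finset.mem_range.mpr hy0) h
    · intro a ha hane
      have ha' := Finset.mem_Icc.mp ha
      refine Finset.sum_eq_zero (fun y hy => ?_)
      rw [Finset.mem_range] at hy
      by_cases hyy : y = y0
      · subst hyy
        rcases Nat.lt_or_ge a a0 with h | h
        · have : f a y = 0 := by
            by_contra h2
            have := ha0min a (by rw [hS, Finset.mem_filter]; exact ⟨ha, h2⟩)
            omega
          rw [this, zero_mul]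
        · rw [eval_iter_lt H Q l0 (y : k) hH _ (by omega), mul_zero]
      · by_cases hc : N.Coprime y
        · have hyU : y ∈ U.erase y0 := by
            rw [Finset.mem_erase, hU, Finset.mem_filter, Finset.mem_range]
            exact ⟨hyy, hy, hc⟩
          rw [eval_iter_lt H ((X - C (y0 : k)) ^ l0 * (X ^ d * (X - C (N : k)) ^ d *
            ∏ z ∈ (U.erase y0).erase y, (X - C (z : k)) ^ w)) w (y : k) (by
              rw [hH, hQ, hP, ← Finset.mul_prod_erase _ _ hyU]; ring) _ (by omega), mul_zero]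
        · rw [hsupp a y hy hc, zero_mul]
    · intro h; exact absurd (Finset.mem_Icc.mpr ⟨ha01, ha0m⟩) h
  rw [hval] at hmain
  have hQne : Q.eval (y0 : k) ≠ 0 := by
    rw [hQ, hP, eval_mul, eval_mul, eval_pow, eval_pow, eval_X, eval_sub, eval_X, eval_C,
      eval_prod]
    refine mul_ne_zero (mul_ne_zero (pow_ne_zero _ ?_) (pow_ne_zero _ ?_)) ?_
    · exact natk_ne_zero (p := p) hy0pos (by omega)
    · exact castk_ne (p := p) (by omega) hNp (by omega)
    · refine Finset.prod_ne_zero_iff.mpr (fun y hy => ?_)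
      rw [Finset.mem_erase, hU, Finset.mem_filter, Finset.mem_range] at hy
      rw [eval_pow, eval_sub, eval_X, eval_C]
      exact pow_ne_zero _ (castk_ne (p := p) (by omega) (by omega) (fun h => hy.1 h.symm))
  exact mul_ne_zero ha0ne (mul_ne_zero (factk_ne_zero (p := p) (by omega)) hQne) hmain

/-- the parity of the scaled Bernoulli sums -/
lemma parity_zero {N : ℕ} (hN : 2 ≤ N) (hp3 : 3 ≤ p) (g : ℕ → k) (h0 : g 0 = 0) (ε n : ℕ)
    (hg : ∀ y, 1 ≤ y → y < N → g (N - y) = (-1) ^ ε * g y) (hn : n + 2 ≤ p)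
    (ho : Odd (n + ε)) : ∑ y ∈ range N, g y * ee k N n y = 0 := by
  obtain ⟨N', hN'⟩ : ∃ N', N = N' + 1 := ⟨N - 1, by omega⟩
  have h1 : ∑ y ∈ range N, g y * ee k N n y = ∑ j ∈ range N', g (j + 1) * ee k N n (j + 1) := by
    conv_lhs => rw [hN', Finset.sum_range_succ', h0, zero_mul, add_zero, ← hN']
  have h2 : ∑ j ∈ range N', g (j + 1) * ee k N n (j + 1) =
      - ∑ j ∈ range N', g (j + 1) * ee k N n (j + 1) := by
    conv_lhs => rw [← Finset.sum_range_reflect]
    rw [← Finset.sum_neg_distrib]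
    refine Finset.sum_congr rfl (fun j hj => ?_)
    rw [Finset.mem_range] at hj
    have e1 : N' - 1 - j + 1 = N - (j + 1) := by omega
    rw [e1, hg (j + 1) (by omega) (by omega),
      ee_one_sub (p := p) (by omega) n (j + 1) (by omega) hn hp3]
    have e2 : ((-1 : k)) ^ n * (-1) ^ ε = -1 := by
      rw [← pow_add]; exact ho.neg_one_pow
    linear_combination (g (j + 1) * ee k N n (j + 1)) * e2
  rw [h1]
  have h3 : (2 : k) * ∑ j ∈ range N', g (j + 1) * ee k N n (j + 1) = 0 := by
    linear_combination h2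
  have h4 : (2 : k) ≠ 0 := by
    have := natk_ne_zero (k := k) (p := p) (j := 2) (by omega) (by omega)
    exact_mod_cast this
  exact (mul_eq_zero.mp h3).resolve_left h4

omit hp hk in
/-- a matching from full row rank (Hall's theorem) -/
theorem matching_of_rank {ι : Type*} (R : Finset ι) (B : Finset ℕ) (A : ι → ℕ → k)
    (hrank : ∀ v : ι → k, (∀ b ∈ B, ∑ i ∈ R, v i * A i b = 0) → ∀ i ∈ R, v i = 0) :
    ∃ τ : ι → ℕ, Set.InjOn τ R ∧ ∀ i ∈ R, τ i ∈ B ∧ A i (τ i) ≠ 0 := by
  classical
  set S : ↥R → Finset ℕ := fun a => B.filter (fun b => A a.1 b ≠ 0) with hS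
  have hall : ∀ s : Finset ↥R, s.card ≤ (s.biUnion S).card := by
    intro s
    by_contra hcon
    push Not at hcon
    let f : (↥s → k) →ₗ[k] (↥(s.biUnion S) → k) :=
      { toFun := fun w b => ∑ a : ↥s, w a * A a.1.1 b.1
        map_add' := by
          intro w w'
          funext b
          simp only [Pi.add_apply, add_mul, Finset.sum_add_distrib]
        map_smul' := by
          intro c w
          funext b
          simp only [Pi.smul_apply, smul_eq_mul, RingHom.id_apply, Finset.mul_sum, mul_assoc] }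
    have hker : LinearMap.ker f ≠ ⊥ := by
      refine LinearMap.ker_ne_bot_of_finrank_lt ?_
      rw [Module.finrank_fintype_fun_eq_card, Module.finrank_fintype_fun_eq_card,
        Fintype.card_coe, Fintype.card_coe]
      exact hcon
    obtain ⟨w, hw, hw0⟩ := (Submodule.ne_bot_iff _).mp hker
    rw [LinearMap.mem_ker] at hw
    apply hw0
    let v : ι → k := fun a =>
      if h : ∃ h1 : a ∈ R, (⟨a, h1⟩ : ↥R) ∈ s then w ⟨⟨a, h.1⟩, h.2⟩ else 0
    have hvs : ∀ a : ↥s, v a.1.1 = w a := by
      intro a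
      have h : ∃ h1 : a.1.1 ∈ R, (⟨a.1.1, h1⟩ : ↥R) ∈ s := ⟨a.1.2, a.2⟩
      simp only [v, dif_pos h]
    have hsum : ∀ b : ℕ, ∑ a ∈ R, v a * A a b = ∑ a : ↥s, w a * A a.1.1 b := by
      intro b
      rw [← Finset.sum_coe_sort R]
      have h1 : ∑ a : ↥R, v a.1 * A a.1 b = ∑ a ∈ s, v a.1 * A a.1 b := by
        symm
        refine Finset.sum_subset (Finset.subset_univ s) (fun a _ ha => ?_)
        have h : ¬ ∃ h1 : a.1 ∈ R, (⟨a.1, h1⟩ : ↥R) ∈ s := by
          rintro ⟨_, h2⟩; exact ha h2
        simp only [v, dif_neg h, zero_mul]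
      rw [h1, ← Finset.sum_coe_sort s]
      refine Finset.sum_congr rfl (fun a _ => ?_)
      rw [hvs]
    have hz := hrank v (by
      intro b hb
      rw [hsum]
      by_cases hbS : b ∈ s.biUnion S
      · exact congrFun hw ⟨b, hbS⟩
      · refine Finset.sum_eq_zero (fun a _ => ?_)
        have hnot : A a.1.1 b = 0 := by
          by_contra hreg
          apply hbS
          rw [Finset.mem_biUnion]
          exact ⟨a.1, a.2, by rw [hS]; exact Finset.mem_filter.mpr ⟨hb, hreg⟩⟩
        rw [hnot, mul_zero])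
    funext a
    rw [← hvs a, hz a.1.1 a.1.2]
    rfl
  obtain ⟨f, hf1, hf2⟩ := (Finset.all_card_le_biUnion_card_iff_exists_injective S).mp hall
  refine ⟨fun a => if h : a ∈ R then f ⟨a, h⟩ else 0, ?_, ?_⟩
  · intro a ha b hb hab
    have ha' : a ∈ R := ha
    have hb' : b ∈ R := hb
    simp only [dif_pos ha', dif_pos hb'] at hab
    have := hf1 hab
    exact congrArg Subtype.val this
  · intro a ha
    have h := hf2 ⟨a, ha⟩
    rw [hS] at h
    rw [Finset.mem_filter] at h
    simp only [dif_pos ha]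
    exact h

end Pool.Agent.Run7.h572.ST
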