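import Mathlib
import Pool.Agent.Run7.h572.ST.Core

/-! Reduction of elements of a number field at a homomorphism to the algebraic closure of
`ZMod p`, generalized Bernoulli numbers and their reductions. -/

open Finset NumberField

namespace Pool.Agent.Run7.h572.ST

open Pool.Agent.H332R2

/-- `B_{n,χ} = N^(n-1) ∑_{0 ≤ a < N} χ(a) B_n(a/N)` -/
noncomputable def genBernoulli {K : Type*} [Field K] [NumberField K] {N : ℕ}
    (χ : DirichletCharacter (𝓞 K) N) (n : ℕ) : K :=
  (N : K) ^ (n - 1) * ∑ a ∈ range N, ((χ (a : ZMod N) : 𝓞 K) : K) *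
    (((Polynomial.bernoulli n).eval ((a : ℚ) / N) : ℚ) : K)

section red

set_option linter.unusedSectionVars false

variable {K : Type*} [Field K] [NumberField K] {k : Type*} [Field k]

/-- `r` is the reduction of `z` at `π` -/
def Red (π : 𝓞 K →+* k) (z : K) (r : k) : Prop :=
  ∃ x y : 𝓞 K, π y ≠ 0 ∧ z * (y : K) = (x : K) ∧ r * π y = π x

variable {π : 𝓞 K →+* k}

lemma Red.add {z w : K} {r s : k} (h1 : Red π z r) (h2 : Red π w s) : Red π (z + w) (r + s) := by
  obtain ⟨x1, y1, hy1, e1, f1⟩ := h1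
  obtain ⟨x2, y2, hy2, e2, f2⟩ := h2
  refine ⟨x1 * y2 + x2 * y1, y1 * y2, ?_, ?_, ?_⟩
  · rw [map_mul]; exact mul_ne_zero hy1 hy2
  · push_cast
    linear_combination (y2 : K) * e1 + (y1 : K) * e2
  · rw [map_mul, map_add, map_mul, map_mul]
    linear_combination (π y2) * f1 + (π y1) * f2

lemma Red.mul {z w : K} {r s : k} (h1 : Red π z r) (h2 : Red π w s) : Red π (z * w) (r * s) := by
  obtain ⟨x1, y1, hy1, e1, f1⟩ := h1
  obtain ⟨x2, y2, hy2, e2, f2⟩ := h2
  refine ⟨x1 * x2, y1 * y2, ?_, ?_, ?_⟩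
  · rw [map_mul]; exact mul_ne_zero hy1 hy2
  · push_cast
    linear_combination (w * (y2 : K)) * e1 + (x1 : K) * e2
  · rw [map_mul, map_mul]
    linear_combination (s * π y2) * f1 + (π x1) * f2

lemma Red.int (x : 𝓞 K) : Red π (x : K) (π x) :=
  ⟨x, 1, by rw [map_one]; exact one_ne_zero, by push_cast; ring, by rw [map_one, mul_one]⟩

lemma Red.zero : Red π (0 : K) (0 : k) := by
  simpa using Red.int (π := π) 0

lemma Red.sum {ι : Type*} (s : Finset ι) (z : ι → K) (r : ι → k)
    (h : ∀ i ∈ s, Red π (z i) (r i)) : Red π (∑ i ∈ s, z i) (∑ i ∈ s, r i) := by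
  classical
  induction s using Finset.induction_on with
  | empty => simpa using Red.zero
  | insert a s ha ih =>
    rw [Finset.sum_insert ha, Finset.sum_insert ha]
    exact (h a (Finset.mem_insert_self a s)).add
      (ih (fun i hi => h i (Finset.mem_insert_of_mem hi)))

lemma Red.rat (q : ℚ) (hq : (q.den : k) ≠ 0) : Red π (q : K) (q : k) := by
  refine ⟨((q.num : ℤ) : 𝓞 K), ((q.den : ℕ) : 𝓞 K), by rwa [map_natCast], ?_, ?_⟩
  · show (q : K) * algebraMap (𝓞 K) K ((q.den : ℕ) : 𝓞 K) =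
      algebraMap (𝓞 K) K ((q.num : ℤ) : 𝓞 K)
    rw [map_natCast, map_intCast, Rat.cast_def]
    have : (q.den : K) ≠ 0 := by exact_mod_cast q.den_nz
    field_simp
  · rw [map_natCast, map_intCast, Rat.cast_def]
    field_simp

lemma Red.natInv (n : ℕ) (hn : (n : k) ≠ 0) : Red π ((n : K)⁻¹) ((n : k)⁻¹) := by
  have hn0 : n ≠ 0 := by rintro rfl; simp at hn
  have hnK : (n : K) ≠ 0 := by exact_mod_cast hn0
  refine ⟨1, (n : 𝓞 K), by rwa [map_natCast], ?_, ?_⟩
  · show (n : K)⁻¹ * algebraMap (𝓞 K) K (n : 𝓞 K) = algebraMap (𝓞 K) K 1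
    rw [map_natCast, map_one]; field_simp
  · rw [map_natCast, map_one]; field_simp

lemma Red.unique {z : K} {r s : k} (h1 : Red π z r) (h2 : Red π z s) : r = s := by
  obtain ⟨x1, y1, hy1, e1, f1⟩ := h1
  obtain ⟨x2, y2, hy2, e2, f2⟩ := h2
  have h3 : x1 * y2 = x2 * y1 := by
    apply RingOfIntegers.ext
    push_cast
    linear_combination (y1 : K) * e2 - (y2 : K) * e1
  have h4 := congrArg π h3
  rw [map_mul, map_mul, ← f1, ← f2] at h4
  have h5 : (r - s) * (π y1 * π y2) = 0 := by linear_combination h4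
  have h6 := (mul_eq_zero.mp h5).resolve_right (mul_ne_zero hy1 hy2)
  exact sub_eq_zero.mp h6

variable {p : ℕ} [hp : Fact p.Prime] [hk : CharP k p]

/-- the reduction of a generalized Bernoulli number -/
lemma red_genBernoulli {N : ℕ} (hN : 0 < N) (hNp : N < p) (χ : DirichletCharacter (𝓞 K) N)
    (n : ℕ) (hn : 1 ≤ n) (hnp : n + 2 ≤ p) :
    Red π (genBernoulli χ n)
      ((N : k)⁻¹ * ∑ y ∈ range N, π (χ (y : ZMod N)) * ee k N n y) := by
  have hNk : (N : k) ≠ 0 := natk_ne_zero (p := p) hN hNp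
  have hNK : (N : K) ≠ 0 := by exact_mod_cast hN.ne'
  have e1 : genBernoulli χ n = (N : K)⁻¹ *
      ∑ y ∈ range N, ((χ (y : ZMod N) : 𝓞 K) : K) * ((EQ N n y : ℚ) : K) := by
    unfold genBernoulli EQ
    rw [Finset.mul_sum, Finset.mul_sum]
    refine Finset.sum_congr rfl (fun y _ => ?_)
    push_cast
    obtain ⟨j, rfl⟩ : ∃ j, n = j + 1 := ⟨n - 1, by omega⟩
    rw [Nat.add_sub_cancel, pow_succ]
    field_simp
  rw [e1]
  refine (Red.natInv N hNk).mul (Red.sum _ _ _ (fun y _ => ?_))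
  exact (Red.int _).mul (Red.rat _ (EQ_den_ne (p := p) hN n y hnp (by omega)))

/-- a homomorphism to a field of characteristic `p` is injective on `n`-th roots of unity,
`0 < n < p` -/
lemma roots_inj {n : ℕ} (hn : 0 < n) (hnp : n < p) {x y : 𝓞 K} (hx : x ^ n = 1) (hy : y ^ n = 1)
    (h : π x = π y) : x = y := by
  have hz : (x * y ^ (n - 1)) = 1 := by
    by_contra hne
    have h1 : (x * y ^ (n - 1)) ^ n = 1 := by
      have h0 : (y ^ (n - 1)) ^ n = (y ^ n) ^ (n - 1) := by
        rw [← pow_mul, ← pow_mul, Nat.mul_comm]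
      rw [mul_pow, hx, h0, hy, one_pow, one_mul]
    have h2 : ∑ i ∈ range n, (x * y ^ (n - 1)) ^ i = 0 := by
      have h3 := mul_geom_sum (x * y ^ (n - 1)) n
      rw [h1, sub_self] at h3
      exact (mul_eq_zero.mp h3).resolve_left (sub_ne_zero.mpr hne)
    have h4 := congrArg π h2
    have h5 : π (x * y ^ (n - 1)) = 1 := by
      rw [map_mul, map_pow, h, ← pow_succ']
      have : n - 1 + 1 = n := by omega
      rw [this, ← map_pow, hy, map_one]
    rw [map_sum, map_zero] at h4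
    simp only [map_pow, h5, one_pow, Finset.sum_const, Finset.card_range, nsmul_eq_mul,
      mul_one] at h4
    exact natk_ne_zero (p := p) hn hnp h4
  calc x = x * (y ^ (n - 1) * y) := by
        rw [← pow_succ]
        have : n - 1 + 1 = n := by omega
        rw [this, hy, mul_one]
    _ = (x * y ^ (n - 1)) * y := by ring
    _ = y := by rw [hz, one_mul]

/-- the reduction of a Dirichlet character as a monoid homomorphism -/
def redChar (π : 𝓞 K →+* k) {N : ℕ} (χ : DirichletCharacter (𝓞 K) N) : ZMod N →* k :=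
  (π : 𝓞 K →* k).comp χ.toMonoidHom

lemma redChar_apply {N : ℕ} (χ : DirichletCharacter (𝓞 K) N) (y : ZMod N) :
    redChar π χ y = π (χ y) := rfl

lemma redChar_inj {N : ℕ} (hN : 2 ≤ N) (hNp : N < p) :
    Function.Injective (redChar (N := N) π) := by
  intro χ ψ h
  have : NeZero N := ⟨by omega⟩
  ext u
  have h1 : π (χ (u : ZMod N)) = π (ψ (u : ZMod N)) := by
    rw [← redChar_apply, ← redChar_apply, h]
  have hφ : 0 < N.totient := Nat.totient_pos.mpr (by omega)
  have hφp : N.totient < p := lt_of_le_of_lt (Nat.totient_le N) hNp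
  have hu : ((u : ZMod N)) ^ N.totient = 1 := by
    rw [← Units.val_pow_eq_pow_val, ZMod.pow_totient, Units.val_one]
  have h2 := roots_inj (p := p) (π := π) hφ hφp (x := χ (u : ZMod N)) (y := ψ (u : ZMod N))
    (by rw [← map_pow, hu, map_one]) (by rw [← map_pow, hu, map_one]) h1
  rw [h2]

end red

end Pool.Agent.Run7.h572.ST
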