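import Mathlib
import Pool.Agent.Run7.h572.ST.Red

/-! Several moduli at once: the Bernoulli generating series modulo `p` of periodic functions with
different periods, and a common denominator. -/

open Finset

namespace Pool.Agent.Run7.h572.ST

section series

open PowerSeries

variable (k : Type*) [Field k]

/-- `∑ j ^ n X ^ n / n!` (only the coefficients below `p` matter) -/
noncomputable def EX (j : ℕ) : k⟦X⟧ :=
  PowerSeries.mk (fun n => (j : k) ^ n * ((n.factorial : ℕ) : k)⁻¹)

/-- `∑ eₙ(a) X ^ n / n!` -/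
noncomputable def BS (f a : ℕ) : k⟦X⟧ :=
  PowerSeries.mk (fun n => ee k f n a * ((n.factorial : ℕ) : k)⁻¹)

variable {k} {p : ℕ} [hp : Fact p.Prime] [hk : CharP k p]

omit hp hk in
lemma EX_zero : EX k 0 = 1 := by
  ext n
  rw [EX, coeff_mk, coeff_one]
  rcases Nat.eq_zero_or_pos n with rfl | h
  · simp
  · rw [if_neg (by omega), Nat.cast_zero, zero_pow (by omega), zero_mul]

omit hp hk in
lemma EX_constantCoeff (j : ℕ) : constantCoeff (EX k j) = 1 := by
  rw [← coeff_zero_eq_constantCoeff_apply, EX, coeff_mk]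
  simp

lemma EX_succ (j : ℕ) : (X : k⟦X⟧) ^ p ∣ EX k (j + 1) - EX k j * EX k 1 := by
  rw [X_pow_dvd_iff]
  intro l hl
  rw [map_sub, coeff_mul, Finset.Nat.sum_antidiagonal_eq_sum_range_succ_mk, sub_eq_zero]
  simp only [EX, coeff_mk, Nat.cast_add, Nat.cast_one, one_pow, one_mul]
  rw [add_pow, Finset.sum_mul]
  refine Finset.sum_congr rfl (fun i hi => ?_)
  rw [Finset.mem_range] at hi
  have hil : i ≤ l := by omega
  have h6 := Nat.choose_mul_factorial_mul_factorial hil
  have h7 : ((l.choose i : ℕ) : k) * ((i.factorial : ℕ) : k) *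
      (((l - i).factorial : ℕ) : k) = ((l.factorial : ℕ) : k) := by
    exact_mod_cast congrArg (fun n : ℕ => (n : k)) h6
  have f1 := factk_ne_zero (k := k) (p := p) (j := i) (by omega)
  have f2 := factk_ne_zero (k := k) (p := p) (j := l - i) (by omega)
  have f3 := factk_ne_zero (k := k) (p := p) (j := l) (by omega)
  have hch : ((l.choose i : ℕ) : k) ≠ 0 := by
    intro h0; rw [h0] at h7; simp at h7; exact f3 h7.symm
  rw [← h7, one_pow, mul_one]
  field_simp

lemma EX_pow (j : ℕ) : (X : k⟦X⟧) ^ p ∣ EX k j - EX k 1 ^ j := by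
  induction j with
  | zero => rw [EX_zero, pow_zero, sub_self]; exact dvd_zero _
  | succ j ih =>
    have h1 := EX_succ (k := k) (p := p) j
    have h2 : (X : k⟦X⟧) ^ p ∣ (EX k j - EX k 1 ^ j) * EX k 1 := Dvd.dvd.mul_right ih _
    have h3 := dvd_add h1 h2
    have e : EX k (j + 1) - EX k j * EX k 1 + (EX k j - EX k 1 ^ j) * EX k 1 =
        EX k (j + 1) - EX k 1 ^ (j + 1) := by ring
    rwa [e] at h3

lemma BS_mul {f : ℕ} (hf : 0 < f) (hp3 : 3 ≤ p) (a : ℕ) :
    (X : k⟦X⟧) ^ p ∣ BS k f a * (EX k f - 1) - C (f : k) * X * EX k a := by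
  rw [X_pow_dvd_iff]
  intro r hr
  rw [map_sub, sub_eq_zero, coeff_mul, Finset.Nat.sum_antidiagonal_eq_sum_range_succ_mk,
    Finset.sum_range_succ]
  have h0 : coeff (r - r) (EX k f - 1) = 0 := by
    rw [Nat.sub_self, coeff_zero_eq_constantCoeff_apply, map_sub, EX_constantCoeff, map_one,
      sub_self]
  rw [h0, mul_zero, add_zero, mul_assoc, coeff_C_mul]
  rcases Nat.eq_zero_or_pos r with rfl | hr0
  · simp
  obtain ⟨s, rfl⟩ : ∃ s, r = s + 1 := ⟨r - 1, by omega⟩
  rw [coeff_succ_X_mul]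
  have hs := ee_sum (k := k) (p := p) hf (s + 1) a (by omega) (by omega) hp3
  have fr := factk_ne_zero (k := k) (p := p) (j := s + 1) (by omega)
  have fs := factk_ne_zero (k := k) (p := p) (j := s) (by omega)
  have h1 : ∑ n ∈ range (s + 1), coeff n (BS k f a) * coeff (s + 1 - n) (EX k f - 1) =
      (((s + 1).factorial : ℕ) : k)⁻¹ *
        ∑ n ∈ range (s + 1), ((s + 1).choose n : k) * (f : k) ^ (s + 1 - n) * ee k f n a := by
    rw [Finset.mul_sum]
    refine Finset.sum_congr rfl (fun n hn => ?_)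
    rw [Finset.mem_range] at hn
    have h6 := Nat.choose_mul_factorial_mul_factorial (n := s + 1) (k := n) (by omega)
    have h7 : (((s + 1).choose n : ℕ) : k) * ((n.factorial : ℕ) : k) *
        (((s + 1 - n).factorial : ℕ) : k) = (((s + 1).factorial : ℕ) : k) := by
      exact_mod_cast congrArg (fun n : ℕ => (n : k)) h6
    have f1 := factk_ne_zero (k := k) (p := p) (j := n) (by omega)
    have f2 := factk_ne_zero (k := k) (p := p) (j := s + 1 - n) (by omega)
    have hch : (((s + 1).choose n : ℕ) : k) ≠ 0 := by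
      intro h0; rw [h0] at h7; simp at h7; exact fr h7.symm
    rw [map_sub, coeff_one, if_neg (by omega), sub_zero, BS, EX, coeff_mk, coeff_mk, ← h7]
    field_simp
  rw [h1, hs, EX, coeff_mk, Nat.add_sub_cancel, Nat.factorial_succ]
  have hs1 := natk_ne_zero (k := k) (p := p) (j := s + 1) (by omega) (by omega)
  push_cast at hs1 ⊢
  field_simp

omit hp hk in
/-- a polynomial `A` with `X ^ s ∣ A(e(X))` vanishes to order `s` at `1` -/
lemma order_le (A : Polynomial k) (hA : A ≠ 0) (s : ℕ)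
    (h : (X : k⟦X⟧) ^ s ∣ Polynomial.aeval (EX k 1) A) : s ≤ A.natDegree := by
  obtain ⟨Q, hQ, hQ1⟩ := Polynomial.exists_eq_pow_rootMultiplicity_mul_and_not_dvd A hA 1
  set m := A.rootMultiplicity 1 with hm
  have hQe : Polynomial.eval 1 Q ≠ 0 := by
    intro h0
    exact hQ1 (Polynomial.dvd_iff_isRoot.mpr h0)
  have hm2 : m ≤ A.natDegree := by
    have h1 : (Polynomial.X - Polynomial.C (1 : k)) ^ m ∣ A := ⟨Q, hQ⟩
    have h2 := Polynomial.natDegree_le_of_dvd h1 hA
    rwa [Polynomial.natDegree_pow, Polynomial.natDegree_X_sub_C, mul_one] at h2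
  refine le_trans ?_ hm2
  by_contra hlt
  push Not at hlt
  -- `EX k 1 - 1 = X * U`
  have hX : (X : k⟦X⟧) ∣ EX k 1 - 1 := by
    rw [X_dvd_iff, map_sub, EX_constantCoeff, map_one, sub_self]
  obtain ⟨U, hU⟩ := hX
  have hU1 : constantCoeff U = 1 := by
    have h1 := congrArg (coeff 1) hU
    have h2 : coeff 1 (X * U) = constantCoeff U := by
      have := coeff_succ_X_mul 0 U
      rw [zero_add] at this
      rw [this, coeff_zero_eq_constantCoeff_apply]
    rw [h2, map_sub, coeff_one, if_neg one_ne_zero, sub_zero, EX, coeff_mk] at h1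
    rw [← h1]; simp
  have hQc : constantCoeff (Polynomial.aeval (EX k 1) Q) = Polynomial.eval 1 Q := by
    have h1 := Polynomial.hom_eval₂ Q (algebraMap k k⟦X⟧) (constantCoeff (R := k)) (EX k 1)
    rw [Polynomial.aeval_def, h1, EX_constantCoeff]
    have h2 : (constantCoeff (R := k)).comp (algebraMap k k⟦X⟧) = RingHom.id k := by
      ext x
      simp
    rw [h2]
    rfl
  have hθ : Polynomial.aeval (EX k 1) A =
      X ^ m * (U ^ m * Polynomial.aeval (EX k 1) Q) := by
    conv_lhs => rw [hQ]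
    rw [map_mul, map_pow, map_sub, Polynomial.aeval_X, Polynomial.aeval_C, map_one, hU, mul_pow,
      mul_assoc]
  rw [hθ] at h
  obtain ⟨R, hR⟩ := h
  have h3 : (X : k⟦X⟧) ^ s = X ^ m * (X * X ^ (s - m - 1)) := by
    rw [← pow_succ', ← pow_add]; congr 1; omega
  rw [h3, mul_assoc] at hR
  have h4 := mul_left_cancel₀ (pow_ne_zero m (X_ne_zero (R := k))) hR
  have h5 := congrArg constantCoeff h4
  rw [map_mul, map_pow, hU1, one_pow, one_mul, hQc, map_mul, map_mul,
    ← coeff_zero_eq_constantCoeff_apply X, coeff_zero_X, zero_mul, zero_mul] at h5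
  exact hQe h5

omit hp hk in
/-- the power series of a periodic function -/
lemma periodic_mul {f : ℕ} (g : ℕ → k) (hg : ∀ m, g (m + f) = g m) :
    (((Polynomial.X ^ f - 1 : Polynomial k)) : k⟦X⟧) * PowerSeries.mk g =
      - ((∑ a ∈ range f, Polynomial.C (g a) * Polynomial.X ^ a : Polynomial k) : k⟦X⟧) := by
  ext m
  rw [Polynomial.coe_sub, Polynomial.coe_pow, Polynomial.coe_X, Polynomial.coe_one, sub_mul,
    one_mul, map_sub, coeff_X_pow_mul', coeff_mk, map_neg, Polynomial.coeff_coe,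
    Polynomial.finsetSum_coeff]
  simp only [Polynomial.coeff_C_mul, Polynomial.coeff_X_pow, mul_ite, mul_one, mul_zero]
  rw [Finset.sum_ite_eq]
  by_cases h : f ≤ m
  · rw [if_pos h, if_neg (by rw [Finset.mem_range]; omega), coeff_mk]
    obtain ⟨j, rfl⟩ : ∃ j, m = j + f := ⟨m - f, by omega⟩
    rw [Nat.add_sub_cancel, hg, sub_self, neg_zero]
  · rw [if_neg h, if_pos (by rw [Finset.mem_range]; omega), zero_sub, coeff_mk]

end series

end Pool.Agent.Run7.h572.ST
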